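import Pool.Agent.H754Z.TA.Str

set_option autoImplicit false

namespace Pool.Agent.H754Z.TA

open MeasureTheory Filter Topology Pointwise

universe u v

namespace P1b

theorem lip {a b s d : ℝ} (h1 : a ≤ b + d) (h2 : b ≤ a + d) :
    |max 0 (s - a) - max 0 (s - b)| ≤ d :=
  (abs_max_sub_max_le_max _ _ _ _).trans (max_le (by rw [sub_self, abs_zero]; linarith)
    (abs_le.2 ⟨by linarith, by linarith⟩))

theorem lipL {G : Type u} [Group G] {ν : G → ℝ} (hν : IsLen ν) (s : ℝ) (g y : G) :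
    |max 0 (s - ν (g * y)) - max 0 (s - ν y)| ≤ ν g := by
  have h1 := hν.mul g y
  have h2 := hν.mul g⁻¹ (g * y)
  rw [inv_mul_cancel_left, hν.inv] at h2
  exact lip (by linarith) (by linarith)

theorem lipR {G : Type u} [Group G] {ν : G → ℝ} (hν : IsLen ν) (s : ℝ) (g y : G) :
    |max 0 (s - ν (y * g)) - max 0 (s - ν y)| ≤ ν g := by
  have h1 := hν.mul y g
  have h2 := hν.mul (y * g) g⁻¹
  rw [mul_inv_cancel_right, hν.inv] at h2
  exact lip (by linarith) (by linarith)

theorem lt_of_ne {s a : ℝ} (h : max 0 (s - a) ≠ 0) : a < s := by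
  by_contra h1
  exact h (max_eq_left (by linarith))

end P1b

open P1b

theorem exists_bump {G : Type u} [Group G] [TopologicalSpace G] [IsTopologicalGroup G]
    [LocallyCompactSpace G] [T2Space G] [MeasurableSpace G] [BorelSpace G] (μ : Measure G)
    [μ.IsHaarMeasure] (ν : G → ℝ) (hν : IsLen ν) (hc : Continuous ν) (r c : ℝ) (hr : 0 < r)
    (hK : IsCompact {x | ν x ≤ r})
    (hconj : ∀ g y, ν y ≤ r → ν g ≤ r → ν (y⁻¹ * g * y) ≤ c * ν g) (ρ : ℝ) (hρ : 0 < ρ)
    (hρr : ρ ≤ r) :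
    ∃ (H : G → ℝ) (M : ℝ), 0 ≤ M ∧ Continuous H ∧ (∀ x, 0 ≤ H x) ∧ (∀ x, H x ≠ 0 → ν x ≤ ρ) ∧
      0 < H 1 ∧ ∫ x, H x ∂μ = 1 ∧ (∀ g x, |H (g * x) - H x| ≤ M * ν g) ∧
      ∀ g h x, ν g ≤ r / 2 → ν h ≤ r / 2 →
        |H (g * h * x) - H (g * x) - H (h * x) + H x| ≤ M * ν g * ν h := by
  obtain ⟨ψ, hψ⟩ : ∃ ψ : G → ℝ, ψ = fun y => max 0 (ρ / 2 - ν y) := ⟨_, rfl⟩
  have c1 : Continuous ψ := hψ ▸ continuous_const.max (continuous_const.sub hc)
  have p0 : ∀ y, 0 ≤ ψ y := fun y => hψ ▸ le_max_left _ _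
  have pL : ∀ g y, |ψ (g * y) - ψ y| ≤ ν g := fun g y => hψ ▸ lipL hν _ g y
  have pR : ∀ g y, |ψ (y * g) - ψ y| ≤ ν g := fun g y => hψ ▸ lipR hν _ g y
  have pS : ∀ y, ψ y ≠ 0 → ν y < ρ / 2 := fun y h => P1b.lt_of_ne (by rw [hψ] at h; exact h)
  have p1 : ψ 1 ≠ 0 := by
    rw [hψ]
    exact (lt_max_of_lt_right (by rw [hν.one]; linarith)).ne'
  have s1 : HasCompactSupport ψ := HasCompactSupport.intro hK fun y hy => by
    by_contra h
    exact hy (show ν y ≤ r by linarith [pS y h])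
  have c2 : ∀ x : G, Continuous fun y => ψ (x * y) := fun x => c1.comp (continuous_const_mul x)
  have s2 : ∀ x : G, HasCompactSupport fun y => ψ (x * y) := fun x =>
    s1.comp_homeomorph (Homeomorph.mulLeft x)
  have i2 : ∀ g x : G, Integrable (fun y => ψ (g * y) * ψ (x * y)) μ := fun g x =>
    ((c2 g).mul (c2 x)).integrable_of_hasCompactSupport (s2 x).mul_left
  have i1 : ∀ x : G, Integrable (fun y => ψ y * ψ (x * y)) μ := fun x => by
    simpa only [one_mul] using i2 1 x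
  obtain ⟨H, hH⟩ : ∃ H : G → ℝ, ∀ x, H x = ∫ y, ψ y * ψ (x⁻¹ * y) ∂μ := ⟨_, fun _ => rfl⟩
  have e1 : ∀ g x, H (g * x) - H x = ∫ y, (ψ (g * y) - ψ y) * ψ (x⁻¹ * y) ∂μ := by
    intro g x
    rw [hH, hH, ← integral_mul_left_eq_self _ g]
    simp only [mul_inv_rev, mul_assoc, inv_mul_cancel_left, sub_mul]
    rw [integral_sub (i2 _ _) (i1 _)]
  have b1 : ∀ g x, |H (g * x) - H x| ≤ (∫ y, ψ y ∂μ) * ν g := by
    intro g x
    rw [e1, ← integral_mul_left_eq_self ψ x⁻¹, ← integral_mul_const, ← Real.norm_eq_abs]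
    refine norm_integral_le_of_norm_le
      (((c2 _).integrable_of_hasCompactSupport (s2 _)).mul_const _)
      (Eventually.of_forall fun y => ?_)
    rw [Real.norm_eq_abs, abs_mul, abs_of_nonneg (p0 _), mul_comm]
    exact mul_le_mul_of_nonneg_left (pL g y) (p0 _)
  have b2 : ∀ g h x, ν g ≤ r / 2 → ν h ≤ r / 2 →
      |H (g * h * x) - H (g * x) - H (h * x) + H x| ≤ |c| * μ.real {x | ν x ≤ r} * ν g * ν h := by
    intro g h x hg hh
    have e2 : H (g * h * x) - H (g * x) - H (h * x) + H x =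
        ∫ y, (ψ (g * y) - ψ y) * (ψ ((h * x)⁻¹ * y) - ψ (x⁻¹ * y)) ∂μ := by
      have i3 : ∀ x : G, Integrable (fun y => (ψ (g * y) - ψ y) * ψ (x * y)) μ := fun x => by
        simp only [sub_mul]
        exact (i2 g x).sub (i1 x)
      simp only [mul_sub]
      rw [integral_sub (i3 _) (i3 _), ← e1, ← e1, mul_assoc]
      ring
    rw [e2, ← setIntegral_eq_integral_of_forall_compl_eq_zero (s := {x | ν x ≤ r}),
      ← Real.norm_eq_abs]
    · refine (norm_setIntegral_le_of_norm_le_const (C := ν g * (|c| * ν h)) hK.measure_lt_top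
        fun y hy => ?_).trans (le_of_eq (by ring))
      have h1 := pR (y⁻¹ * h⁻¹ * y) (x⁻¹ * y)
      have h2 := hconj h⁻¹ y hy (by rw [hν.inv]; linarith)
      rw [hν.inv] at h2
      have h3 : x⁻¹ * y * (y⁻¹ * h⁻¹ * y) = (h * x)⁻¹ * y := by group
      rw [h3] at h1
      rw [Real.norm_eq_abs, abs_mul]
      exact mul_le_mul (pL g y) (h1.trans (h2.trans
        (mul_le_mul_of_nonneg_right (le_abs_self c) (hν.nonneg h)))) (abs_nonneg _) (hν.nonneg g)
    · intro y hy
      have h0 : r < ν y := not_le.1 hy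
      have h1 : ψ y = 0 := by
        by_contra h
        linarith [pS y h]
      have h2 : ψ (g * y) = 0 := by
        by_contra h
        have h3 := hν.mul g⁻¹ (g * y)
        rw [inv_mul_cancel_left, hν.inv] at h3
        linarith [pS _ h]
      rw [h1, h2, sub_self, zero_mul]
  have c3 : Continuous H := by
    refine continuous_iff_continuousAt.2 fun x => ?_
    rw [ContinuousAt, tendsto_iff_norm_sub_tendsto_zero]
    have h1 : Tendsto (fun z => (∫ y, ψ y ∂μ) * ν (z * x⁻¹)) (𝓝 x) (𝓝 0) := by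
      have := ((hc.comp (continuous_mul_const x⁻¹)).tendsto x).const_mul (∫ y, ψ y ∂μ)
      simpa only [Function.comp, mul_inv_cancel, hν.one, mul_zero] using this
    refine squeeze_zero (fun _ => norm_nonneg _) (fun z => ?_) h1
    simpa only [inv_mul_cancel_right, Real.norm_eq_abs] using b1 (z * x⁻¹) x
  have n0 : ∀ x, 0 ≤ H x := fun x =>
    hH x ▸ integral_nonneg fun y => mul_nonneg (p0 _) (p0 _)
  have sH : ∀ x, H x ≠ 0 → ν x ≤ ρ := by
    intro x hx
    rw [hH] at hx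
    obtain ⟨y, hy⟩ : ∃ y, ψ y * ψ (x⁻¹ * y) ≠ 0 := by
      by_contra h
      push Not at h
      exact hx (by simp only [h, integral_zero])
    have h1 := pS _ (left_ne_zero_of_mul hy)
    have h2 := pS _ (right_ne_zero_of_mul hy)
    have h3 := hν.mul (x⁻¹ * y) y⁻¹
    rw [mul_inv_cancel_right, hν.inv, hν.inv] at h3
    linarith
  have H1 : 0 < H 1 := by
    rw [hH]
    exact (c1.mul (c2 _)).integral_pos_of_hasCompactSupport_nonneg_nonzero (x := 1)
      (s2 _).mul_left (fun y => mul_nonneg (p0 _) (p0 _)) (by simpa using p1)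
  have I0 : 0 < ∫ x, H x ∂μ :=
    c3.integral_pos_of_hasCompactSupport_nonneg_nonzero (x := 1)
      (HasCompactSupport.intro hK fun y hy => by
        by_contra h
        exact hy ((sH y h).trans hρr)) n0 H1.ne'
  set I := ∫ x, H x ∂μ
  have a0 : 0 ≤ ∫ y, ψ y ∂μ := integral_nonneg p0
  have a1 : 0 ≤ |c| * μ.real {x | ν x ≤ r} := by positivity
  refine ⟨fun x => H x / I, (∫ y, ψ y ∂μ + |c| * μ.real {x | ν x ≤ r}) / I, by positivity,
    c3.div_const _, fun x => div_nonneg (n0 x) I0.le,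
    fun x hx => sH x fun h => hx (by simp only [h, zero_div]), div_pos H1 I0,
    by rw [integral_div, div_self I0.ne'], fun g x => ?_, fun g h x hg hh => ?_⟩
  · rw [← sub_div, abs_div, abs_of_pos I0, div_mul_eq_mul_div]
    refine div_le_div_of_nonneg_right ((b1 g x).trans ?_) I0.le
    exact mul_le_mul_of_nonneg_right (by linarith) (hν.nonneg g)
  · rw [← sub_div, ← sub_div, ← add_div, abs_div, abs_of_pos I0, div_mul_eq_mul_div,
      div_mul_eq_mul_div]
    refine div_le_div_of_nonneg_right ((b2 g h x hg hh).trans ?_) I0.le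
    exact mul_le_mul_of_nonneg_right (mul_le_mul_of_nonneg_right (by linarith) (hν.nonneg g))
      (hν.nonneg h)

end Pool.Agent.H754Z.TA
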